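import Pool.Agent.Helper84.TL.Defs

set_option autoImplicit false

namespace Pool.Agent.Helper84.TL

open Finset Pool.Agent.Lead.TB

namespace OrderAux

/-- The average of the sum of `F B v` over a random order of `U`, `B` the set of the elements
not before `v`. -/
noncomputable def LL {α : Type} [DecidableEq α] (U : Finset α) (F : Finset α → α → ℝ) : ℝ :=
  ∑ v ∈ U, ∑ A ∈ (U.erase v).powerset, wt U.card A.card * F (insert v A) v

theorem sum_erase_powerset {α : Type} [DecidableEq α] (V : Finset α) (f : Finset α → ℝ) :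
    ∑ u ∈ V, ∑ A ∈ (V.erase u).powerset, f A = ∑ A ∈ V.powerset, ((V \ A).card : ℝ) * f A := by
  rw [Finset.sum_comm' (t' := V.powerset) (s' := fun A => V \ A)]
  · refine Finset.sum_congr rfl fun A _ => ?_
    rw [Finset.sum_const, nsmul_eq_mul]
  · intro u A
    simp only [mem_powerset, mem_sdiff]
    constructor
    · rintro ⟨hu, hA⟩
      exact ⟨⟨hu, fun h => by simpa using hA h⟩, hA.trans (erase_subset _ _)⟩
    · rintro ⟨⟨hu, h⟩, hA⟩
      exact ⟨hu, fun a ha => mem_erase.2 ⟨fun h' => h (h' ▸ ha), hA ha⟩⟩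

theorem LL_rec {α : Type} [DecidableEq α] (U : Finset α) (hU : U.Nonempty)
    (F : Finset α → α → ℝ) :
    (U.card : ℝ) * LL U F = ∑ v ∈ U, (F U v + LL (U.erase v) F) := by
  have hcard : 0 < U.card := hU.card_pos
  obtain ⟨m, hm⟩ : ∃ m, U.card = m + 1 := ⟨U.card - 1, by omega⟩
  have e1 : ∑ u ∈ U, LL (U.erase u) F =
      ∑ v ∈ U, ∑ A ∈ (U.erase v).powerset,
        ((((U.erase v) \ A).card : ℝ) * (wt m A.card * F (insert v A) v)) := by
    have : ∀ u ∈ U, LL (U.erase u) F = ∑ v ∈ U.erase u, ∑ A ∈ ((U.erase u).erase v).powerset,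
        wt m A.card * F (insert v A) v := by
      intro u hu
      unfold LL
      rw [card_erase_of_mem hu, hm, Nat.add_sub_cancel]
    rw [Finset.sum_congr rfl this]
    rw [Finset.sum_comm' (t' := U) (s' := fun v => U.erase v)]
    · refine Finset.sum_congr rfl fun v _ => ?_
      rw [← sum_erase_powerset]
      refine Finset.sum_congr rfl fun u _ => ?_
      rw [erase_right_comm]
    · intro u v
      simp only [mem_erase]
      tauto
  rw [Finset.sum_add_distrib, e1, ← Finset.sum_add_distrib]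
  unfold LL
  rw [Finset.mul_sum]
  refine Finset.sum_congr rfl fun v hv => ?_
  rw [Finset.mul_sum]
  have hVc : (U.erase v).card = m := by rw [card_erase_of_mem hv, hm]; rfl
  have key : ∀ A ∈ (U.erase v).powerset, (U.card : ℝ) * (wt U.card A.card * F (insert v A) v) =
      (if A = U.erase v then F (insert v A) v else 0) +
      (((U.erase v) \ A).card : ℝ) * (wt m A.card * F (insert v A) v) := by
    intro A hA
    rw [mem_powerset] at hA
    have hAc : A.card ≤ m := hVc ▸ card_le_card hA
    have hdc : ((U.erase v) \ A).card = m - A.card := by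
      rw [card_sdiff_of_subset hA, hVc]
    rw [hdc, hm]
    by_cases h : A = U.erase v
    · have : A.card = m := by rw [h, hVc]
      rw [if_pos h, this]
      simp only [wt]
      have h1 : ((m.factorial : ℕ) : ℝ) ≠ 0 := by positivity
      have h2 : (((m + 1).factorial : ℕ) : ℝ) = (m + 1) * m.factorial := by
        rw [Nat.factorial_succ]; push_cast; ring
      simp only [Nat.add_sub_cancel, Nat.sub_self, Nat.factorial_zero, Nat.cast_one, mul_one,
        Nat.cast_zero, zero_mul, add_zero]
      rw [h2]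
      have h3 : ((m : ℝ) + 1) ≠ 0 := by positivity
      push_cast
      field_simp
    · rw [if_neg h, zero_add]
      have hlt : A.card < m := by
        rcases lt_or_eq_of_le hAc with h' | h'
        · exact h'
        · exact absurd (eq_of_subset_of_card_le hA (by rw [hVc, h'])) h
      obtain ⟨d, hd⟩ : ∃ d, m = A.card + d + 1 := ⟨m - A.card - 1, by omega⟩
      simp only [wt]
      have e2 : m + 1 - 1 - A.card = d + 1 := by omega
      have e3 : m - 1 - A.card = d := by omega
      have e4 : m - A.card = d + 1 := by omega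
      rw [e2, e3, e4]
      have h2 : (((m + 1).factorial : ℕ) : ℝ) = (m + 1) * m.factorial := by
        rw [Nat.factorial_succ]; push_cast; ring
      have h4 : (((d + 1).factorial : ℕ) : ℝ) = (d + 1) * d.factorial := by
        rw [Nat.factorial_succ]; push_cast; ring
      rw [h2, h4]
      have h3 : ((m : ℝ) + 1) ≠ 0 := by positivity
      have h1 : ((m.factorial : ℕ) : ℝ) ≠ 0 := by positivity
      push_cast
      field_simp
  rw [Finset.sum_congr rfl key, Finset.sum_add_distrib, Finset.sum_ite_eq' (U.erase v).powerset,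
    if_pos (mem_powerset_self _), insert_erase hv]

theorem image_eq {n : ℕ} (U : Finset (Fin n)) (σ σ₀ : Equiv.Perm (Fin n))
    (h : ∀ v, v ∉ U → σ v = σ₀ v) : U.image σ = U.image σ₀ := by
  ext w
  simp only [mem_image]
  constructor
  · rintro ⟨v, hv, rfl⟩
    refine ⟨σ₀.symm (σ v), ?_, by simp⟩
    by_contra hc
    have h1 := h _ hc
    rw [Equiv.apply_symm_apply] at h1
    have h2 := σ.injective h1
    rw [h2] at hc
    exact hc hv
  · rintro ⟨v, hv, rfl⟩
    refine ⟨σ.symm (σ₀ v), ?_, by simp⟩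
    by_contra hc
    have h1 := h _ hc
    rw [Equiv.apply_symm_apply] at h1
    have h2 := σ₀.injective h1
    rw [← h2] at hc
    exact hc hv

theorem main {n : ℕ} (G : Gr n)
    (ω : Finset (Fin n) → Finset (Fin n) → Fin n → Fin n → ℝ)
    (hpos : ∀ U K v w, v ∈ U → w ∈ K → w ∈ G v → 0 < ω U K v w)
    (hsum : ∀ U K v, v ∈ U → ∑ w ∈ G v ∩ K, ω U K v w ≤ 1) (m : ℕ) :
    ∀ (U : Finset (Fin n)) (σ₀ : Equiv.Perm (Fin n)), U.card = m →
      ∑ σ ∈ (univ : Finset (Equiv.Perm (Fin n))).filter
        (fun σ => (∀ v, v ∉ U → σ v = σ₀ v) ∧ ∀ v ∈ U, σ v ∈ G v),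
        Real.exp (LL U fun B v => Real.log (ω B (B.image σ) v (σ v))) ≤ 1 := by
  induction m with
  | zero =>
    intro U σ₀ hU
    have hU' : U = ∅ := card_eq_zero.1 hU
    subst hU'
    have : (univ : Finset (Equiv.Perm (Fin n))).filter
        (fun σ => (∀ v, v ∉ (∅ : Finset (Fin n)) → σ v = σ₀ v) ∧
          ∀ v ∈ (∅ : Finset (Fin n)), σ v ∈ G v) = {σ₀} := by
      ext σ
      simp only [mem_filter, mem_univ, true_and, notMem_empty, not_false_eq_true, forall_const,
        IsEmpty.forall_iff, implies_true, and_true, mem_singleton]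
      exact Equiv.ext_iff.symm
    rw [this, sum_singleton]
    simp [LL]
  | succ m ih =>
    intro U σ₀ hU
    have hne : U.Nonempty := card_pos.1 (by omega)
    have hc : (0 : ℝ) < U.card := by exact_mod_cast hne.card_pos
    set S := (univ : Finset (Equiv.Perm (Fin n))).filter
        (fun σ => (∀ v, v ∉ U → σ v = σ₀ v) ∧ ∀ v ∈ U, σ v ∈ G v) with hS
    set ell : Equiv.Perm (Fin n) → Finset (Fin n) → Fin n → ℝ :=
      fun σ B v => Real.log (ω B (B.image σ) v (σ v)) with hell
    set K := U.image σ₀ with hK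
    have hSmem : ∀ σ ∈ S, (∀ v, v ∉ U → σ v = σ₀ v) ∧ ∀ v ∈ U, σ v ∈ G v := by
      intro σ hσ
      simpa [hS] using hσ
    have hmemK : ∀ σ ∈ S, ∀ v ∈ U, σ v ∈ K := by
      intro σ hσ v hv
      rw [hK, ← image_eq U σ σ₀ (hSmem σ hσ).1]
      exact mem_image_of_mem _ hv
    -- one row
    have hrow : ∀ v ∈ U, ∑ σ ∈ S, ω U K v (σ v) * Real.exp (LL (U.erase v) (ell σ)) ≤ 1 := by
      intro v hv
      have hmaps : ∀ σ ∈ S, σ v ∈ G v ∩ K := fun σ hσ =>
        mem_inter.2 ⟨(hSmem σ hσ).2 v hv, hmemK σ hσ v hv⟩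
      rw [← Finset.sum_fiberwise_of_maps_to hmaps]
      refine le_trans (Finset.sum_le_sum (g := fun w => ω U K v w) fun w hw => ?_)
        (hsum U K v hv)
      have hw' := mem_inter.1 hw
      have hω : 0 ≤ ω U K v w := (hpos U K v w hv hw'.2 hw'.1).le
      have e1 : ∑ σ ∈ S with σ v = w, ω U K v (σ v) * Real.exp (LL (U.erase v) (ell σ)) =
          ω U K v w * ∑ σ ∈ S with σ v = w, Real.exp (LL (U.erase v) (ell σ)) := by
        rw [Finset.mul_sum]
        refine Finset.sum_congr rfl fun σ hσ => ?_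
        rw [(mem_filter.1 hσ).2]
      rw [e1]
      have e2 : ∑ σ ∈ S with σ v = w, Real.exp (LL (U.erase v) (ell σ)) ≤ 1 := by
        rcases (S.filter fun σ => σ v = w).eq_empty_or_nonempty with h | ⟨σ₁, h1⟩
        · rw [h, sum_empty]; exact zero_le_one
        · have h1' := mem_filter.1 h1
          refine le_trans ?_ (ih (U.erase v) σ₁ (by rw [card_erase_of_mem hv, hU]; rfl))
          refine Finset.sum_le_sum_of_subset_of_nonneg ?_ fun σ _ _ => (Real.exp_pos _).le
          intro σ hσ
          have hσ' := mem_filter.1 hσ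
          simp only [mem_filter, mem_univ, true_and]
          refine ⟨fun v' hv' => ?_, fun v' hv' => (hSmem σ hσ'.1).2 v' (mem_of_mem_erase hv')⟩
          by_cases hvv : v' = v
          · rw [hvv, hσ'.2, h1'.2]
          · have : v' ∉ U := fun hh => hv' (mem_erase.2 ⟨hvv, hh⟩)
            rw [(hSmem σ hσ'.1).1 v' this, (hSmem σ₁ h1'.1).1 v' this]
      calc ω U K v w * ∑ σ ∈ S with σ v = w, Real.exp (LL (U.erase v) (ell σ))
          ≤ ω U K v w * 1 := mul_le_mul_of_nonneg_left e2 hω
        _ = ω U K v w := mul_one _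
    -- Jensen
    have hJ : ∀ σ ∈ S, Real.exp (LL U (ell σ)) ≤
        ∑ v ∈ U, (1 / (U.card : ℝ)) * (ω U K v (σ v) * Real.exp (LL (U.erase v) (ell σ))) := by
      intro σ hσ
      have hrec := LL_rec U hne (ell σ)
      have hLL : LL U (ell σ) = ∑ v ∈ U, (1 / (U.card : ℝ)) • (ell σ U v + LL (U.erase v) (ell σ)) := by
        simp only [smul_eq_mul]
        rw [← Finset.mul_sum, ← hrec]
        field_simp
      rw [hLL]
      refine le_trans (convexOn_exp.map_sum_le (fun v _ => by positivity) ?_
        (fun v _ => Set.mem_univ _)) ?_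
      · rw [Finset.sum_const, nsmul_eq_mul]
        field_simp
      · refine Finset.sum_le_sum fun v hv => ?_
        rw [smul_eq_mul, Real.exp_add]
        have himg : U.image σ = K := image_eq U σ σ₀ (hSmem σ hσ).1
        have hωpos : 0 < ω U K v (σ v) :=
          hpos U K v (σ v) hv (hmemK σ hσ v hv) ((hSmem σ hσ).2 v hv)
        have : Real.exp (ell σ U v) = ω U K v (σ v) := by
          rw [hell]
          simp only
          rw [himg, Real.exp_log hωpos]
        rw [this]
    calc ∑ σ ∈ S, Real.exp (LL U (ell σ))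
        ≤ ∑ σ ∈ S, ∑ v ∈ U, (1 / (U.card : ℝ)) *
            (ω U K v (σ v) * Real.exp (LL (U.erase v) (ell σ))) := Finset.sum_le_sum hJ
      _ = ∑ v ∈ U, (1 / (U.card : ℝ)) *
            ∑ σ ∈ S, (ω U K v (σ v) * Real.exp (LL (U.erase v) (ell σ))) := by
          rw [Finset.sum_comm]
          refine Finset.sum_congr rfl fun v _ => ?_
          rw [Finset.mul_sum]
      _ ≤ ∑ v ∈ U, (1 / (U.card : ℝ)) * 1 :=
          Finset.sum_le_sum fun v hv => mul_le_mul_of_nonneg_left (hrow v hv) (by positivity)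
      _ = 1 := by
          rw [Finset.sum_const, nsmul_eq_mul]
          field_simp

end OrderAux

open OrderAux in
/-- TL-D: sequential predictors, averaged over all orders. -/
theorem order_avg {n : ℕ} (G : Gr n)
    (ω : Finset (Fin n) → Finset (Fin n) → Fin n → Fin n → ℝ)
    (hpos : ∀ U K v w, v ∈ U → w ∈ K → w ∈ G v → 0 < ω U K v w)
    (hsum : ∀ U K v, v ∈ U → ∑ w ∈ G v ∩ K, ω U K v w ≤ 1) :
    ∑ σ ∈ pm G, Real.exp (∑ v, ∑ A ∈ (univ.erase v).powerset, wt n A.card *
      Real.log (ω (insert v A) ((insert v A).image σ) v (σ v))) ≤ 1 := by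
  have h := main G ω hpos hsum n univ (Equiv.refl _) (by simp)
  simp only [LL, card_univ, Fintype.card_fin] at h
  refine le_trans (le_of_eq ?_) h
  refine Finset.sum_congr ?_ fun σ _ => rfl
  ext σ
  simp [pm]

end Pool.Agent.Helper84.TL
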